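import Pool.Agent.Y29.UR.Conc
import Pool.Agent.Y29.UT.Fin

namespace Pool.Agent.Results.MP_8cec24_co.ContinuumManySameCore

/-- `P` is upper homogeneous (upho): every principal filter `{x : x ≥ a}`, with the induced order,
is order-isomorphic to `P`. -/
def Upho (P : Type) [PartialOrder P] : Prop :=
  ∀ a : P, Nonempty (P ≃o {x : P // a ≤ x})

/-- Every two elements have a join (least upper bound) and a meet (greatest lower bound). -/
def IsLatticeOrder (P : Type) [PartialOrder P] : Prop :=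
  ∀ a b : P, (∃ m, IsLUB {a, b} m) ∧ ∃ m, IsGLB {a, b} m

/-- `P` is finitary: for each `a`, the lengths `n` of the chains `x 0 < ... < x n = a` are
bounded. -/
def Finitary (P : Type) [PartialOrder P] : Prop :=
  ∀ a : P, BddAbove {n : ℕ | ∃ x : Fin (n + 1) → P, StrictMono x ∧ x (Fin.last n) = a}

/-- `P` has a minimum `e` and is finite-type `ℕ`-graded: there is a rank function with value `0` at
`e`, which goes up by one along each covering pair and has finite level sets. -/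
def FiniteTypeGraded (P : Type) [PartialOrder P] : Prop :=
  ∃ (e : P) (ρ : P → ℕ), (∀ x, e ≤ x) ∧ ρ e = 0 ∧ (∀ x y, x ⋖ y → ρ y = ρ x + 1) ∧
    ∀ n, {x | ρ x = n}.Finite

/-- The core of `P`, the interval between the minimum `e` and the join `c` of all atoms, is the
lattice `M_n`: besides `e` and `c` it has exactly the `n` atoms. -/
def HasCoreM (P : Type) [PartialOrder P] (n : ℕ) : Prop :=
  ∃ e c : P, (∀ x, e ≤ x) ∧ {a | e ⋖ a}.ncard = n ∧ IsLUB {a | e ⋖ a} c ∧ ¬ e ⋖ c ∧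
    ∀ x ≤ c, x = e ∨ e ⋖ x ∨ x = c

/-- `P` is multiplicable: it carries a monoid structure that is left-cancellative and
invertible-free, and whose left divisibility relation is the order of `P`. -/
def Multiplicable (P : Type) [PartialOrder P] : Prop :=
  ∃ (mul : P → P → P) (e : P),
    (∀ a b c, mul (mul a b) c = mul a (mul b c)) ∧ (∀ a, mul e a = a ∧ mul a e = a) ∧
    (∀ a b c, mul a b = mul a c → b = c) ∧ (∀ a b, mul a b = e → a = e ∧ b = e) ∧
    ∀ a b, a ≤ b ↔ ∃ c, mul a c = b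

/-- A finitary, finite-type `ℕ`-graded upho lattice with core `M_n` which is not multiplicable. -/
def Good (P : Type) [PartialOrder P] (n : ℕ) : Prop :=
  Upho P ∧ IsLatticeOrder P ∧ Finitary P ∧ FiniteTypeGraded P ∧ HasCoreM P n ∧ ¬ Multiplicable P

theorem good {G Y : Type} [Group G] [Nontrivial Y] [Finite Y] (S : Y29.UQ.SS G Y)
    (h : ∀ mul : Y29.UQ.P S → Y29.UQ.P S → Y29.UQ.P S,
      (∀ a b c, mul (mul a b) c = mul a (mul b c)) → (∀ a b c, mul a b = mul a c → b = c) →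
      (∀ a b, a ≤ b ↔ ∃ c, mul a c = b) → False) :
    Good (Y29.UQ.P S) (Nat.card Y) := by
  refine ⟨fun a => Y29.UQ.upho a,
    fun a b => ⟨Y29.UQ.exists_isLUB a b, Y29.UQ.exists_isGLB a b⟩, ?_,
    ⟨Y29.UQ.bt, Y29.UQ.rk, Y29.UQ.bt_le, rfl, fun x y h => Y29.UQ.rk_covBy h,
      Y29.UQ.finite_rank⟩, ?_, ?_⟩
  · intro a
    refine ⟨Y29.UQ.rk a, ?_⟩
    rintro n ⟨x, hx, rfl⟩
    have h : ∀ i : ℕ, ∀ hi : i < n + 1, i ≤ Y29.UQ.rk (x ⟨i, hi⟩) := by
      intro i
      induction i with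
      | zero => intro _; exact Nat.zero_le _
      | succ i ih =>
        intro hi
        have h1 := ih (by omega)
        have h2 : x ⟨i, by omega⟩ < x ⟨i + 1, hi⟩ := hx (by simp [Fin.lt_def])
        have h3 := Y29.UQ.rk_lt h2
        omega
    exact h n (by omega)
  · have hs : {a : Y29.UQ.P S | Y29.UQ.bt ⋖ a} = Set.range Y29.UQ.at' := by
      ext a
      simp only [Set.mem_ofPred_eq, Set.mem_range, Y29.UQ.covBy_iff, Y29.UQ.bt_L]
      exact ⟨fun ⟨x, h⟩ => ⟨x, h.symm⟩, fun ⟨x, h⟩ => ⟨x, h.symm⟩⟩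
    refine ⟨Y29.UQ.bt, Y29.UQ.De, Y29.UQ.bt_le, ?_, ?_, ?_, ?_⟩
    · rw [hs]
      have h1 : Nat.card (Set.range (Y29.UQ.at' : Y → Y29.UQ.P S)) = Nat.card Y :=
        Nat.card_congr (Equiv.ofInjective _ (fun x y h => Y29.UQ.at_inj h)).symm
      rw [← h1]; rfl
    · rw [hs]
      refine ⟨?_, ?_⟩
      · rintro _ ⟨x, rfl⟩
        exact Y29.UQ.at_le_De x
      · intro u hu
        obtain ⟨x, y, hxy⟩ := exists_pair_ne Y
        exact Y29.UQ.De_le hxy (hu ⟨x, rfl⟩) (hu ⟨y, rfl⟩)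
    · intro h
      have := Y29.UQ.rk_covBy h
      simp at this
    · intro x hx
      have h1 := Y29.UQ.rk_mono hx
      rw [Y29.UQ.rk_De] at h1
      rcases Nat.lt_or_ge (Y29.UQ.rk x) 2 with h2 | h2
      · rcases Nat.lt_or_ge (Y29.UQ.rk x) 1 with h3 | h3
        · exact Or.inl (Y29.UQ.eq_bt (by omega))
        · obtain ⟨y, rfl⟩ := Y29.UQ.exists_at (p := x) (by omega)
          exact Or.inr (Or.inl (Y29.UQ.covBy_iff.2 ⟨y, rfl⟩))
      · exact Or.inr (Or.inr (Y29.UQ.eq_of_le_of_rk hx (by rw [Y29.UQ.rk_De]; exact h2)))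
  · rintro ⟨mul, e, hass, _, hcan, _, hle⟩
    exact h mul hass hcan hle

/-- (1) For every `n ≥ 3` there are infinitely many pairwise non-isomorphic finitary, finite-type
`ℕ`-graded upho lattices with core `M_n` which are not multiplicable.  (2) For every `n ≥ 5` there
are even continuum many: a family indexed by all sets of natural numbers. -/
theorem result :
    (∀ n : ℕ, 3 ≤ n → ∃ (P : ℕ → Type) (_ : ∀ k, PartialOrder (P k)),
      (∀ k, Good (P k) n) ∧ ∀ k l, k ≠ l → IsEmpty (P k ≃o P l)) ∧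
    (∀ n : ℕ, 5 ≤ n → ∃ (P : Set ℕ → Type) (_ : ∀ A, PartialOrder (P A)),
      (∀ A, Good (P A) n) ∧ ∀ A B, A ≠ B → IsEmpty (P A ≃o P B)) := by
  refine ⟨?_, ?_⟩
  · intro n hn
    have hf : Fact (1 < 2) := ⟨one_lt_two⟩
    obtain ⟨m, rfl⟩ : ∃ m, n = m + 3 := ⟨n - 3, by omega⟩
    have hY : Nontrivial (Y29.UR.Y 2 (m + 1)) := ⟨Sum.inl 0, Sum.inr 0, by simp⟩
    have hc : Nat.card (Y29.UR.Y 2 (m + 1)) = m + 3 := by
      rw [Nat.card_sum, Nat.card_zmod, Nat.card_fin]; omega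
    refine ⟨fun k => Y29.UQ.P (Y29.UR.S 2 (k + 1) (m + 1)), fun k => inferInstance, ?_, ?_⟩
    · intro k
      rw [← hc]
      exact good _ (fun mul hass hcan hle => Y29.UR.no_mul (by omega) mul hass hcan hle)
    · intro k l hkl
      rcases Nat.lt_or_gt_of_ne hkl with h | h
      · exact Y29.UR.not_iso (by omega) (by omega)
      · have h1 : IsEmpty (Y29.UQ.P (Y29.UR.S 2 (l + 1) (m + 1)) ≃o
          Y29.UQ.P (Y29.UR.S 2 (k + 1) (m + 1))) := Y29.UR.not_iso (by omega) (by omega)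
        exact ⟨fun α => h1.false α.symm⟩
  · intro n hn
    obtain ⟨m, rfl⟩ : ∃ m, n = m + 5 := ⟨n - 5, by omega⟩
    have hc : Nat.card (Y29.UT.Y (m + 3)) = m + 5 := by
      rw [Nat.card_sum, Nat.card_zmod, Nat.card_fin]; omega
    refine ⟨fun A => Y29.UQ.P (Y29.UT.S (insert 0 (Nat.succ '' A)) (m + 3)),
      fun A => inferInstance, ?_, ?_⟩
    · intro A
      rw [← hc]
      exact good _ (fun mul hass hcan hle =>
        Y29.UT.no_mul ⟨0, Set.mem_insert _ _⟩ mul hass hcan hle)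
    · intro A B hAB
      apply Y29.UT.not_iso
      intro h
      apply hAB
      ext j
      have h1 := Set.ext_iff.1 h (j + 1)
      simpa using h1

end Pool.Agent.Results.MP_8cec24_co.ContinuumManySameCore
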